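import Pool.Agent.H70.RZT.S

/-!
# RZT, row SPC2: completions of `E` above a prime which splits completely, and above `2`
-/

set_option autoImplicit false

namespace Pool.RZT

open Polynomial NumberField IsDedekindDomain Pool.TOW Pool.T1 Pool.NF

/-- **SPC2.** -/
theorem spc2 : SPC2Stmt := by
  intro K _ _ P E _ _ L _ O' ι h
  obtain ⟨hC, hw⟩ := h
  refine ⟨fun hS => ⟨hC.dvr, hC.complete, hC.fin, hS L O' ι ⟨hC, hw⟩⟩, ?_⟩
  have h1 : (2 : L)⁻¹ ∈ O' ↔ (2 : K)⁻¹ ∈ vP K P := by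
    rw [← hw, ValuationSubring.mem_comap, map_inv₀, map_ofNat]
  have h2 : (2 : K)⁻¹ ∈ vP K P ↔ P.valuation K ((2 : K)⁻¹) ≤ 1 := Iff.rfl
  have h4 : P.valuation K (2 : K) < 1 ↔ (2 : 𝓞 K) ∈ P.asIdeal := by
    rw [← map_ofNat (algebraMap (𝓞 K) K) 2]
    exact P.valuation_lt_one_iff_mem (K := K) (2 : 𝓞 K)
  have h0 : P.valuation K (2 : K) ≠ 0 := by
    rw [Valuation.ne_zero_iff]
    exact two_ne_zero
  rw [h1, h2, map_inv₀, inv_le_one₀ (zero_lt_iff.2 h0), not_le, h4]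

end Pool.RZT
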